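import Pool.Agent.V11150.HadC
import Pool.Agent.H114R2.Design
import Pool.Agent.Y341.Had.Agayan

/-!
# Symmetric designs with Hadamard and Menon parameters for `m = q + 2` and `m = w ^ r (w + 1) / 2`

There is a constant `C` such that for all `n` and all `t ≥ 2 ^ C ^ (n + 1)` the following numbers `m`
(and, when they come from odd data, they are odd) are good:

* `m = q + 2` for a prime power `q ≤ 2 ↑↑ n` with `2 ^ (t + 1) ∣ q + 3`;
* `m = w ^ r * (w + 1) / 2`, `w = v ^ 2 ^ (j + 1)`, for every natural number `v ≤ 2 ↑↑ n` with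
  `2 ^ t ∣ v + 1` and all `j`, `r`.

For every good `m` and every `N` which is `1` or half the order of a Hadamard matrix there are a
symmetric `(4 m N - 1, 2 m N - 1, m N - 1)`-design and a symmetric design with the Menon parameters
`(4 u², 2 u² - u, u² - u)`, `u = 2 m N`.
-/

set_option autoImplicit false

namespace Pool.Agent.Results.MP_3038d1_co.OddHadamardDesigns

/-- `B` lists the `v` blocks of a symmetric `(v, k, l)`-design on the point set `Fin v`:
`k < v`, `0 < l`, every block has `k` points, every point is in `k` blocks, any two distinct points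
are in exactly `l` common blocks (and any two distinct blocks have exactly `l` common points). -/
def IsSymmetricDesign (v k l : ℕ) (B : Fin v → Finset (Fin v)) : Prop :=
  k < v ∧ 0 < l ∧ (∀ i, (B i).card = k) ∧
  (∀ x, (Finset.univ.filter (fun i => x ∈ B i)).card = k) ∧
  (∀ x y, x ≠ y → (Finset.univ.filter (fun i => x ∈ B i ∧ y ∈ B i)).card = l) ∧
  (∀ i j, i ≠ j → (B i ∩ B j).card = l)

/-- for every `N` which is `1` or half the order of a Hadamard matrix there are symmetric designs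
with the Hadamard parameters for `m N` and with the Menon parameters for `u = 2 m N` -/
def Good (m : ℕ) : Prop :=
  ∀ N : ℕ, 0 < N →
    (N = 1 ∨ ∃ H : Matrix (Fin (2 * N)) (Fin (2 * N)) ℤ, (∀ i j, H i j = 1 ∨ H i j = -1) ∧
      H * H.transpose = ((2 * N : ℕ) : ℤ) • 1) →
    (∃ B, IsSymmetricDesign (4 * (m * N) - 1) (2 * (m * N) - 1) (m * N - 1) B) ∧
    ∃ B, IsSymmetricDesign (4 * (2 * (m * N)) ^ 2) (2 * (2 * (m * N)) ^ 2 - 2 * (m * N))
      ((2 * (m * N)) ^ 2 - 2 * (m * N)) B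

theorem good_of {m : ℕ} (hm : 1 < m) (h : Pool.Agent.H108R3.Had.HasHad (4 * m)) : Good m := by
  intro N hN hH
  have key : ∀ m : ℕ, 1 < m → Pool.Agent.H108R3.Had.HasHad (4 * m) →
      (∃ B, IsSymmetricDesign (4 * m - 1) (2 * m - 1) (m - 1) B) ∧
      ∃ B, IsSymmetricDesign (4 * (2 * m) ^ 2) (2 * (2 * m) ^ 2 - 2 * m)
        ((2 * m) ^ 2 - 2 * m) B := by
    intro m hm h
    refine ⟨Pool.Agent.H114R2.hadDesign_of_had hm h, Pool.Agent.H114R2.menon_of_had (by omega) ?_⟩
    have e : 2 * (2 * m) = 4 * m := by ring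
    rw [e]
    exact h
  refine key (m * N) (lt_of_lt_of_le hm (Nat.le_mul_of_pos_right m hN)) ?_
  rcases hH with rfl | h'
  · rw [mul_one]; exact h
  · have e1 : 4 * m = 2 * (2 * m) := by ring
    have e2 : 4 * (m * N) = 2 * (2 * m * N) := by ring
    rw [e2]
    rw [e1] at h
    exact Pool.Agent.Y341.Had.agayan h h'

theorem result : ∃ C : ℕ,
    (∀ n q t : ℕ, IsPrimePow q → q ≤ (fun x : ℕ => 2 ^ x)^[n] 1 → 2 ^ C ^ (n + 1) ≤ t →
      2 ^ (t + 1) ∣ q + 3 → Odd (q + 2) ∧ Good (q + 2)) ∧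
    (∀ n v t j r w m : ℕ, v ≤ (fun x : ℕ => 2 ^ x)^[n] 1 → 2 ^ C ^ (n + 1) ≤ t → 2 ^ t ∣ v + 1 →
      w = v ^ 2 ^ (j + 1) → 2 * m = w ^ r * (w + 1) → Odd m ∧ Good m) := by
  obtain ⟨C₁, _, h₁⟩ := Pool.Agent.V11150.HadC.main
  obtain ⟨C₂, hC₂, h₂⟩ := Pool.Agent.V11150.HadA.main
  have mono : ∀ {a b : ℕ} (n : ℕ), a ≤ b → 2 ^ a ^ (n + 1) ≤ 2 ^ b ^ (n + 1) := by
    intro a b n h
    exact Nat.pow_le_pow_right (by norm_num) (Nat.pow_le_pow_left h _)
  refine ⟨max C₁ C₂, ?_, ?_⟩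
  · intro n q t hq hqn ht hd
    have ht' : 2 ^ C₁ ^ (n + 1) ≤ t := le_trans (mono n (le_max_left _ _)) ht
    have hH := h₁ n q t hq hqn ht' hd
    have h2 : 2 ∣ q + 3 := dvd_trans (dvd_pow_self 2 (Nat.succ_ne_zero t)) hd
    refine ⟨?_, good_of (by omega) hH⟩
    rw [Nat.odd_iff]
    omega
  · intro n v t j r w m hv ht hd hw hm
    have ht' : 2 ^ C₂ ^ (n + 1) ≤ t := le_trans (mono n (le_max_right _ _)) ht
    have hH := h₂ n v t j r hv ht' hd
    have h1t : 1 ≤ t := le_trans Nat.one_le_two_pow ht'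
    have h2 : 2 ∣ v + 1 := dvd_trans (dvd_pow_self 2 (by omega)) hd
    have hvo : v % 2 = 1 := by omega
    have hwsq : w = (v ^ 2 ^ j) * (v ^ 2 ^ j) := by
      rw [hw, pow_succ, mul_comm (2 ^ j) 2, pow_mul' , sq]
    have hao : (v ^ 2 ^ j) % 2 = 1 := by
      rw [Nat.pow_mod, hvo]; simp
    have hw4 : w % 4 = 1 := by
      rw [hwsq, Nat.mul_mod]
      have h4 : (v ^ 2 ^ j) % 4 = 1 ∨ (v ^ 2 ^ j) % 4 = 3 := by omega
      rcases h4 with h | h <;> rw [h]
    have hwr : (w ^ r) % 4 = 1 := by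
      rw [Nat.pow_mod, hw4]; simp
    have hmo : m % 2 = 1 := by
      have h5 : (2 * m) % 4 = 2 := by
        rw [hm, Nat.mul_mod, hwr]
        have : (w + 1) % 4 = 2 := by omega
        rw [this]
      omega
    refine ⟨Nat.odd_iff.mpr hmo, good_of ?_ ?_⟩
    · have hv2 : 2 ≤ v := by
        have h4 : 2 ^ 2 ∣ v + 1 := by
          refine dvd_trans (pow_dvd_pow 2 ?_) hd
          refine le_trans ?_ ht'
          have hC : 0 < C₂ ^ (n + 1) := pow_pos (by omega) _
          calc 2 = 2 ^ 1 := by norm_num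
            _ ≤ 2 ^ C₂ ^ (n + 1) := Nat.pow_le_pow_right (by norm_num) hC
        omega
      have hw2 : 4 ≤ w := by
        rw [hwsq]
        have : 2 ≤ v ^ 2 ^ j := by
          calc 2 ≤ v := hv2
            _ = v ^ 1 := (pow_one v).symm
            _ ≤ v ^ 2 ^ j := Nat.pow_le_pow_right (by omega) Nat.one_le_two_pow
        nlinarith
      have h6 : w + 1 ≤ w ^ r * (w + 1) := Nat.le_mul_of_pos_left _ (pow_pos (by omega) r)
      omega
    · have e : 4 * m = 2 * (v ^ 2 ^ (j + 1)) ^ r * (v ^ 2 ^ (j + 1) + 1) := by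
        rw [← hw, show 4 * m = 2 * (2 * m) by ring, hm]; ring
      rw [e]
      exact hH

end Pool.Agent.Results.MP_3038d1_co.OddHadamardDesigns
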