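import Pool.Agent.V11295.TwinMenon

/-!
# Symmetric designs with the Menon parameters `(4 u², 2 u² - u, u² - u)`, `u` odd

1. If there are a symmetric conference matrix of order `2 u` and a skew conference matrix of order
`2 u + 2` (that is, a skew-Hadamard matrix of that order), then there are a symmetric design with the
Menon parameters `(4 u², 2 u² - u, u² - u)` and, for `N = 1` and for every `N` such that there is a
Hadamard matrix of order `2 N`, a symmetric `(4 u² N - 1, 2 u² N - 1, u² N - 1)`-design.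

2. There is a constant `C` such that this is the case for all natural numbers `n`, `u`, `t` such that
`2 u - 1` is a prime power, `2 u + 1 ≤ 2 ↑↑ n` (the power tower of `n` twos, `1` for `n = 0`),
`t ≥ 2 ^ C ^ (n + 1)` and `2 ^ t ∣ u + 1`. All these `u` are odd.

The design comes from a regular Hadamard matrix of order `4 u² = 1 + (2 u - 1) (2 u + 1)`. Let `Q` and
`S` be the cores of the two conference matrices. The matrix
`Q ⊗ S + J ⊗ I - I ⊗ J + I ⊗ I`, bordered by ones, is a Hadamard matrix; it becomes regular when the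
rows and the columns `(i, k)` are multiplied by `g k`, for any `g : [2 u + 1] → {1, -1}` with sum `1`.
For part 2, `Q` is the Paley core and `S` comes from the asymptotic existence theorem for
skew-Hadamard matrices.
-/

set_option autoImplicit false

namespace Pool.Agent.Results.MP_3038d1_co.OddMenonDesigns

open Pool.Agent.V11295.TwinMenon
open Pool.Agent.Y342.SK (IsCoreG IsCore)

/-- `B` lists the `v` blocks of a symmetric `(v, k, l)`-design on the point set `Fin v`:
`k < v`, `0 < l`, every block has `k` points, every point is in `k` blocks, any two distinct points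
are in exactly `l` common blocks (and any two distinct blocks have exactly `l` common points). -/
def IsSymmetricDesign (v k l : ℕ) (B : Fin v → Finset (Fin v)) : Prop :=
  k < v ∧ 0 < l ∧ (∀ i, (B i).card = k) ∧
  (∀ x, (Finset.univ.filter (fun i => x ∈ B i)).card = k) ∧
  (∀ x y, x ≠ y → (Finset.univ.filter (fun i => x ∈ B i ∧ y ∈ B i)).card = l) ∧
  (∀ i j, i ≠ j → (B i ∩ B j).card = l)

/-- a conference matrix of order `n`, symmetric for `e = 1` and skew for `e = -1`: the diagonal is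
zero, all other entries are `1` or `-1`, and the rows are orthogonal with squares `n - 1` -/
def IsConference (e : ℤ) {n : ℕ} (C : Matrix (Fin n) (Fin n) ℤ) : Prop :=
  (∀ i, C i i = 0) ∧ (∀ i j, i ≠ j → C i j = 1 ∨ C i j = -1) ∧ (∀ i j, C j i = e * C i j) ∧
  ∀ i j, ∑ k, C i k * C j k = if i = j then (n : ℤ) - 1 else 0

/-- there are symmetric designs with the Menon parameters for `u` and with the Hadamard parameters
for `u ^ 2 * N`, where `N` is `1` or half the order of any Hadamard matrix -/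
def Designs (u : ℕ) : Prop :=
  (∃ B, IsSymmetricDesign (4 * u ^ 2) (2 * u ^ 2 - u) (u ^ 2 - u) B) ∧
  ∀ N : ℕ, 0 < N →
    (N = 1 ∨ ∃ H : Matrix (Fin (2 * N)) (Fin (2 * N)) ℤ, (∀ i j, H i j = 1 ∨ H i j = -1) ∧
      H * H.transpose = ((2 * N : ℕ) : ℤ) • 1) →
    ∃ B, IsSymmetricDesign (4 * (u ^ 2 * N) - 1) (2 * (u ^ 2 * N) - 1) (u ^ 2 * N - 1) B

theorem designs {u : ℕ} (hu : 1 < u) {e : ℤ} (he : e * e = 1)
    {Q : Fin (2 * u - 1) → Fin (2 * u - 1) → ℤ} (hQ : IsCoreG e Q)
    {S : Fin (2 * u + 1) → Fin (2 * u + 1) → ℤ} (hS : IsCoreG (-e) S) : Designs u := by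
  obtain ⟨h1, h2⟩ := menon hu he hQ hS
  refine ⟨h1, fun N hN hH => ?_⟩
  have hu2 : 1 < u ^ 2 := by nlinarith
  have h3 : Pool.Agent.H108R3.Had.HasHad (4 * (u ^ 2 * N)) := by
    rcases hH with rfl | h
    · rw [mul_one]; exact h2
    · have e1 : 4 * u ^ 2 = 2 * (2 * u ^ 2) := by ring
      have e2 : 4 * (u ^ 2 * N) = 2 * (2 * u ^ 2 * N) := by ring
      rw [e2]
      rw [e1] at h2
      exact Pool.Agent.Y341.Had.agayan h2 h
  exact Pool.Agent.H114R2.hadDesign_of_had
    (lt_of_lt_of_le hu2 (Nat.le_mul_of_pos_right _ hN)) h3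

theorem result :
    (∀ u : ℕ, 1 < u →
      (∃ C : Matrix (Fin (2 * u)) (Fin (2 * u)) ℤ, IsConference 1 C) →
      (∃ K : Matrix (Fin (2 * u + 2)) (Fin (2 * u + 2)) ℤ, IsConference (-1) K) →
      Designs u) ∧
    ∃ C : ℕ, ∀ n u t : ℕ, IsPrimePow (2 * u - 1) → 2 * u + 1 ≤ (fun x : ℕ => 2 ^ x)^[n] 1 →
      2 ^ C ^ (n + 1) ≤ t → 2 ^ t ∣ u + 1 → Odd u ∧ 1 < u ∧ Designs u := by
  constructor
  · rintro u hu ⟨C, hC⟩ ⟨K, hK⟩
    obtain ⟨w, rfl⟩ : ∃ w, u = w + 1 := ⟨u - 1, by omega⟩
    have hC' : ∃ B : Fin (2 * w + 1) → Fin (2 * w + 1) → ℤ, IsCoreG 1 B := by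
      refine core_of_conf (v := 2 * w + 1) (C := C) (by norm_num) hC.1 hC.2.1 hC.2.2.1 ?_
      intro i j
      refine (hC.2.2.2 i j).trans ?_
      by_cases h : i = j
      · rw [if_pos h, if_pos h]; push_cast; ring
      · rw [if_neg h, if_neg h]
    have hK' : ∃ B : Fin (2 * (w + 1) + 1) → Fin (2 * (w + 1) + 1) → ℤ, IsCoreG (-1) B := by
      refine core_of_conf (v := 2 * (w + 1) + 1) (C := K) (by norm_num) hK.1 hK.2.1 hK.2.2.1 ?_
      intro i j
      refine (hK.2.2.2 i j).trans ?_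
      by_cases h : i = j
      · rw [if_pos h, if_pos h]; push_cast; ring
      · rw [if_neg h, if_neg h]
    obtain ⟨Q, hQ⟩ := hC'
    obtain ⟨S, hS⟩ := hK'
    exact designs hu (by norm_num) (Q := Q) hQ hS
  · obtain ⟨C, hC, h⟩ := Pool.Agent.Y342.SK.main_skew
    refine ⟨C, fun n u t hp hn ht hd => ?_⟩
    have hC1 : 0 < C ^ (n + 1) := pow_pos (by omega) _
    have h2t : 2 ≤ t := by
      calc 2 = 2 ^ 1 := by norm_num
        _ ≤ 2 ^ C ^ (n + 1) := Nat.pow_le_pow_right (by norm_num) hC1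
        _ ≤ t := ht
    have h4 : 4 ∣ u + 1 := dvd_trans (pow_dvd_pow 2 h2t) hd
    have hu : 1 < u := by omega
    have hodd : Odd u := by rw [Nat.odd_iff]; omega
    have hq4 : (2 * u - 1) % 4 = 1 := by omega
    obtain ⟨Q, hQ⟩ := Pool.Agent.Y341.Had.paley_core hp hq4
    have hd' : 2 ^ t ∣ (2 * u + 1) + 1 := by
      have : 2 * u + 1 + 1 = 2 * (u + 1) := by ring
      rw [this]
      exact hd.mul_left 2
    obtain ⟨S, hS⟩ := Pool.Agent.Y342.SK.core_of h hn ht hd'
    exact ⟨hodd, hu, designs hu (by norm_num) hQ hS.toG⟩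

end Pool.Agent.Results.MP_3038d1_co.OddMenonDesigns
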