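import Pool.Agent.V11295.PlaneMenon
import Pool.Agent.V11295.PaleyOne
import Pool.Agent.V11295.SmallOrders

/-!
# Symmetric designs with the Menon parameters `(4 u², 2 u² - u, u² - u)`, `u = 3` modulo `4`

Let `u` be a prime power with `u = 3` modulo `4`.

1. If there is a Hadamard matrix of order `u² - 1`, or one of order `2 (u - 1)`, then there are a
regular Hadamard matrix of order `4 u²`, a symmetric design with the Menon parameters
`(4 u², 2 u² - u, u² - u)` and, for `N = 1` and for every `N` such that there is a Hadamard matrix of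
order `2 N`, a symmetric `(4 u² N - 1, 2 u² N - 1, u² N - 1)`-design.

2. All this exists for all `u < 1283`.

3. There is a constant `C` such that all this exists if `u² ≤ 2 ↑↑ n` (the power tower of `n` twos, `1`
for `n = 0`), `t ≥ C ^ (n + 1)` and `2 ^ t ∣ u + 1`.

Let `K` be the field with `u` elements. For a function `φ` on the `u + 1` directions of the plane
`K × K` let `φ^ q` be the sum of `φ m` over the lines with direction `m` through the origin which contain
`q`. The matrix `c^ (p - q)` is a symmetric core of order `u²` for every balanced sign function `c`.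
Miyamoto's construction combines it with a Hadamard matrix of order `u² - 1` to a Hadamard matrix of
order `4 u²`. It maps a certain sign vector (on one half of the index set it comes from a function `f` on
`K` with sum `1`, on the other one from `ω^` with `ω` balanced and orthogonal to `c`) to `2 u` times a
sign vector, so it becomes regular when some rows and columns are negated.
-/

set_option autoImplicit false

namespace Pool.Agent.Results.MP_3038d1_co.PrimePowerMenonDesigns

/-- `B` lists the `v` blocks of a symmetric `(v, k, l)`-design on the point set `Fin v`: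
`k < v`, `0 < l`, every block has `k` points, every point is in `k` blocks, any two distinct points
are in exactly `l` common blocks (and any two distinct blocks have exactly `l` common points). -/
def IsSymmetricDesign (v k l : ℕ) (B : Fin v → Finset (Fin v)) : Prop :=
  k < v ∧ 0 < l ∧ (∀ i, (B i).card = k) ∧
  (∀ x, (Finset.univ.filter (fun i => x ∈ B i)).card = k) ∧
  (∀ x y, x ≠ y → (Finset.univ.filter (fun i => x ∈ B i ∧ y ∈ B i)).card = l) ∧
  (∀ i j, i ≠ j → (B i ∩ B j).card = l)

/-- a Hadamard matrix of order `n` -/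
def IsHadamard {n : ℕ} (H : Matrix (Fin n) (Fin n) ℤ) : Prop :=
  (∀ i j, H i j = 1 ∨ H i j = -1) ∧ H * H.transpose = (n : ℤ) • 1

/-- there are a regular Hadamard matrix of order `4 u ^ 2`, a symmetric design with the Menon
parameters for `u` and symmetric designs with the Hadamard parameters for `u ^ 2 * N`, where `N` is
`1` or half the order of any Hadamard matrix -/
def Designs (u : ℕ) : Prop :=
  (∃ X : Matrix (Fin (4 * u ^ 2)) (Fin (4 * u ^ 2)) ℤ, IsHadamard X ∧
    (∀ i, ∑ j, X i j = 2 * (u : ℤ)) ∧ ∀ j, ∑ i, X i j = 2 * (u : ℤ)) ∧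
  (∃ B, IsSymmetricDesign (4 * u ^ 2) (2 * u ^ 2 - u) (u ^ 2 - u) B) ∧
  ∀ N : ℕ, 0 < N → (N = 1 ∨ ∃ H : Matrix (Fin (2 * N)) (Fin (2 * N)) ℤ, IsHadamard H) →
    ∃ B, IsSymmetricDesign (4 * (u ^ 2 * N) - 1) (2 * (u ^ 2 * N) - 1) (u ^ 2 * N - 1) B

theorem designs {u : ℕ} (hp : IsPrimePow u) (h4 : u % 4 = 3)
    (hH : Pool.Agent.H108R3.Had.HasHad (u ^ 2 - 1)) : Designs u := by
  obtain ⟨p, k, hp, hk, rfl⟩ := hp
  have hp' : p.Prime := hp.nat_prime
  have : Fact p.Prime := ⟨hp'⟩
  have : Fintype (GaloisField p k) := Fintype.ofFinite _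
  have hcard : Fintype.card (GaloisField p k) = p ^ k := by
    rw [← Nat.card_eq_fintype_card, GaloisField.card p k (by omega)]
  have hreg := Pool.Agent.V11295.PlaneMenon.plane_regular (K := GaloisField p k)
    (by rw [hcard]; exact h4) (by rw [hcard]; exact hH)
  rw [hcard] at hreg
  revert hreg
  generalize p ^ k = u at *
  rintro ⟨X, hX, hrow, hmul⟩
  have hu : 1 < u := by omega
  have hu2 : 1 < u ^ 2 := by nlinarith
  have hN : 0 < 4 * u ^ 2 := by positivity
  obtain ⟨hrr, hcc⟩ := Pool.Agent.H114R2.had_rows hN hmul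
  have hcol : ∀ j, ∑ i, X i j = - (2 * u : ℤ) := by
    intro j
    have h1 : ∑ i, (∑ j', X i j') * X i j = 4 * u ^ 2 := by
      simp only [Finset.sum_mul]
      rw [Finset.sum_comm]
      simp only [hcc]
      simp
    simp only [hrow] at h1
    rw [← Finset.mul_sum] at h1
    have hu0 : (u : ℤ) ≠ 0 := by
      have : 0 < u := by omega
      exact_mod_cast this.ne'
    have h2 : (-(2 * (u : ℤ))) * (∑ i, X i j) = (-(2 * (u : ℤ))) * (-(2 * u)) := by
      rw [h1]; ring
    exact mul_left_cancel₀ (by simpa using hu0) h2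
  refine ⟨⟨-X, ⟨fun i j => ?_, ?_⟩, fun i => ?_, fun j => ?_⟩,
    Pool.Agent.V11295.TwinMenon.menon_of_regular hu hX hrow hmul, fun N hN hH => ?_⟩
  · rcases hX i j with h | h <;> simp only [Matrix.neg_apply, h] <;> norm_num
  · rw [Matrix.transpose_neg, neg_mul_neg]
    exact hmul
  · simp only [Matrix.neg_apply, Finset.sum_neg_distrib, hrow]
    ring
  · simp only [Matrix.neg_apply, Finset.sum_neg_distrib, hcol]
    ring
  have h2 : Pool.Agent.H108R3.Had.HasHad (4 * u ^ 2) := ⟨X, hX, hmul⟩
  have h3 : Pool.Agent.H108R3.Had.HasHad (4 * (u ^ 2 * N)) := by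
    rcases hH with rfl | h
    · rw [mul_one]; exact h2
    · have e1 : 4 * u ^ 2 = 2 * (2 * u ^ 2) := by ring
      have e2 : 4 * (u ^ 2 * N) = 2 * (2 * u ^ 2 * N) := by ring
      rw [e2]
      rw [e1] at h2
      exact Pool.Agent.Y341.Had.agayan h2 h
  exact Pool.Agent.H114R2.hadDesign_of_had
    (lt_of_lt_of_le hu2 (Nat.le_mul_of_pos_right _ hN)) h3

theorem result :
    (∀ u : ℕ, IsPrimePow u → u % 4 = 3 →
      ((∃ H : Matrix (Fin (u ^ 2 - 1)) (Fin (u ^ 2 - 1)) ℤ, IsHadamard H) ∨
        ∃ H : Matrix (Fin (2 * (u - 1))) (Fin (2 * (u - 1))) ℤ, IsHadamard H) →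
      Designs u) ∧
    (∀ u : ℕ, IsPrimePow u → u % 4 = 3 → u < 1283 → Designs u) ∧
    ∃ C : ℕ, ∀ n u t : ℕ, IsPrimePow u → u ^ 2 ≤ (fun x : ℕ => 2 ^ x)^[n] 1 →
      C ^ (n + 1) ≤ t → 2 ^ t ∣ u + 1 → u % 4 = 3 ∧ Designs u := by
  refine ⟨?_, ?_, ?_⟩
  · rintro u hu h4 (h | h)
    · exact designs hu h4 h
    · have h1 := Pool.Agent.V11295.PaleyOne.paley_pow hu h4
      obtain ⟨w, rfl⟩ : ∃ w, u = 2 * w + 1 := ⟨u / 2, by omega⟩
      have e1 : 2 * w + 1 + 1 = 2 * (w + 1) := by ring
      have e2 : (2 * w + 1) ^ 2 - 1 = 2 * ((w + 1) * (2 * w + 1 - 1)) := by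
        have : (2 * w + 1) ^ 2 = 2 * ((w + 1) * (2 * w)) + 1 := by ring
        rw [this, Nat.add_sub_cancel, Nat.add_sub_cancel]
      rw [e1] at h1
      refine designs hu h4 ?_
      rw [e2]
      exact Pool.Agent.Y341.Had.agayan h1 h
  · intro u hu h4 hlt
    exact designs hu h4 (Pool.Agent.V11295.SmallOrders.small hlt hu h4)
  · obtain ⟨C, hC, hm⟩ := Pool.Agent.W851.Had.main_had
    refine ⟨C, fun n u t hu hn ht hd => ?_⟩
    have ht2 : 2 ≤ t := by
      refine le_trans ?_ ht
      exact hC.trans (Nat.le_self_pow (by omega) C)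
    have h4 : 4 ∣ u + 1 := dvd_trans (pow_dvd_pow 2 ht2) hd
    have h43 : u % 4 = 3 := by omega
    refine ⟨h43, designs hu h43 ?_⟩
    obtain ⟨m, hm'⟩ := hd
    have e1 : u ^ 2 - 1 = 2 ^ t * (m * (u - 1)) := by
      obtain ⟨w, rfl⟩ : ∃ w, u = w + 1 := ⟨u - 1, by omega⟩
      rw [← mul_assoc, ← hm']
      have : (w + 1) ^ 2 = (w + 1 + 1) * w + 1 := by ring
      rw [this, Nat.add_sub_cancel, Nat.add_sub_cancel]
    rw [e1]
    apply hm n _ t _ ht
    refine le_trans ?_ hn
    have h5 : m * (u - 1) ≤ 2 ^ t * (m * (u - 1)) := Nat.le_mul_of_pos_left _ (by positivity)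
    rw [← e1] at h5
    omega

end Pool.Agent.Results.MP_3038d1_co.PrimePowerMenonDesigns
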