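import Mathlib
import Pool.Agent.V11209.TD.Pts
import Pool.Agent.Y346.CH.Diag

set_option autoImplicit false

/-!
# Tactical decompositions of symmetric designs on almost all numbers of points

A tactical decomposition of a symmetric design is a partition of the points into classes together
with a partition of the blocks into classes such that the number of points of each class in a block
depends only on the class of the block, and the number of blocks of each class that contain a point
depends only on the class of the point.  The orbits of a group of automorphisms are an example, but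
no group is needed: the stable partition obtained by colour refinement from any colouring of the
points and blocks is another one, so that every design has many tactical decompositions.

There is a function `y` which tends to infinity such that all `v` outside a set of natural density
zero have the following property.  Let a tactical decomposition of a symmetric `(v, k, lam)` design
with `2 ≤ k ≤ v - 2` be given (`k` and `lam` arbitrary), such that no prime factor `> y v` of `k - lam`
divides the size of a class of points or blocks.  Then the number of the point classes (which is also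
the number of the block classes) is odd.  If moreover the sizes of the point classes have no prime
factor `> y v` at all, then this number is `3` modulo `4` and the product of these sizes is a perfect
square; the same holds for the block classes.

The starting file `PermutationCharacters` is about the orbits of groups whose order has only prime
factors from a fixed set.

Proof.  For almost all `v` the theorem of Bruck, Ryser and Chowla leaves only the families of
parameters `k = r² b`, `lam = r² c`, `v = 1 + b (r² + s²)`, `r² b = 1 + c (r² + s²)` and their
complements, with bounded `r`, `s` (part `AA` of the starting library).  The matrix of the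
intersection numbers, extended by a row and a column, gives a similarity
`B diag(|L_j|, -lam) Bᵀ = n diag(|P_i|, -lam)` of integral quadratic forms, `n = k - lam`.  At a prime
`p` which divides `n` exactly once and neither `lam` nor any of the sizes this forces `c' + 1 = 2 t` for
the number `c'` of classes and `(-1)^(t+1) lam ∏ |P_i|` to be a square modulo `p`; here `-lam` is a
square modulo all prime divisors `p` of `b - c`.
-/

open Filter Topology

namespace Pool.Agent.Results.MP_3038d1_co.TacticalDecompositions

/-- The blocks `B i` (`i : Fin v`) form a symmetric `(v, k, lam)` design on the points `Fin v`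
with `2 ≤ k ≤ v - 2`. -/
structure IsDesign (v k lam : ℕ) (B : Fin v → Finset (Fin v)) : Prop where
  two_le : 2 ≤ k
  le : k + 2 ≤ v
  size : ∀ i, (B i).card = k
  pair : ∀ x y : Fin v, x ≠ y →
    (Finset.univ.filter (fun i => x ∈ B i ∧ y ∈ B i)).card = lam

/-- The classes `{x | f x = a}` of points and `{i | g i = b}` of (indices of) blocks form a tactical
decomposition. -/
structure Tactical {v : ℕ} (B : Fin v → Finset (Fin v)) {c m : ℕ} (f : Fin v → Fin c)
    (g : Fin v → Fin m) : Prop where
  /-- the point classes are not empty -/
  points_nonempty : Function.Surjective f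
  /-- the block classes are not empty -/
  blocks_nonempty : Function.Surjective g
  /-- two blocks of the same class contain the same number of points of each class -/
  blocks : ∀ i j : Fin v, g i = g j → ∀ a : Fin c,
    {x : Fin v | x ∈ B i ∧ f x = a}.ncard = {x : Fin v | x ∈ B j ∧ f x = a}.ncard
  /-- two points of the same class are contained in the same number of blocks of each class -/
  points : ∀ x z : Fin v, f x = f z → ∀ b : Fin m,
    {i : Fin v | x ∈ B i ∧ g i = b}.ncard = {i : Fin v | z ∈ B i ∧ g i = b}.ncard

/-- the property of the number `v` of points, for the bound `y` for the prime factors -/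
def Good (y v : ℕ) : Prop :=
  ∀ (k lam : ℕ) (B : Fin v → Finset (Fin v)) (c m : ℕ) (f : Fin v → Fin c) (g : Fin v → Fin m),
    IsDesign v k lam B → Tactical B f g →
      (∀ a, ∀ q : ℕ, q.Prime → q ∣ k - lam → q ∣ {x | f x = a}.ncard → q ≤ y) →
      (∀ b, ∀ q : ℕ, q.Prime → q ∣ k - lam → q ∣ {i | g i = b}.ncard → q ≤ y) →
        m = c ∧ c % 2 = 1 ∧
        ((∀ a, ∀ q : ℕ, q.Prime → q ∣ {x | f x = a}.ncard → q ≤ y) →
          c % 4 = 3 ∧ IsSquare (∏ a, {x | f x = a}.ncard)) ∧
        ((∀ b, ∀ q : ℕ, q.Prime → q ∣ {i | g i = b}.ncard → q ≤ y) →
          c % 4 = 3 ∧ IsSquare (∏ b, {i | g i = b}.ncard))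

open Pool.Agent.TH905.PC Pool.Agent.V11209.TD Pool.Agent.H634R3.PPC in
theorem good_of {j y v : ℕ} (hj : y ≤ j) (hn : ¬ HasT j.factorial v) : Good y v := by
  classical
  intro k lam B c m f g hB ht hP hL
  have hTD : TD (fun (x : Fin v) (i : Fin v) => x ∈ B i) f g := by
    refine ⟨ht.points_nonempty, ht.blocks_nonempty, fun l m h i => ?_, fun x z h j => ?_⟩
    · rw [← ncard_cnt, ← ncard_cnt]
      exact ht.blocks l m h i
    · rw [← ncard_cnt, ← ncard_cnt]
      exact ht.points x z h j
  simp only [ncard_cs] at hP hL ⊢
  have hq : ∀ q : ℕ, q.Prime → q ≤ y → q ∣ j.factorial :=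
    fun q hq h => Nat.dvd_factorial hq.pos (h.trans hj)
  have hCn : Cn j.factorial f g := by
    by_contra hbad
    have hkv := hB.le
    exact hn ⟨k, lam, B, c, m, f, g, hB.two_le, hB.le, by omega, hB.size, hB.pair, hTD,
      fun i q hqp h1 h2 => hq q hqp (hP i q hqp h1 h2),
      fun i q hqp h1 h2 => hq q hqp (hL i q hqp h1 h2), hbad⟩
  exact ⟨hCn.1, hCn.2.1, fun h => hCn.2.2.1 (fun i q hqp h1 => hq q hqp (h i q hqp h1)),
    fun h => hCn.2.2.2 (fun i q hqp h1 => hq q hqp (h i q hqp h1))⟩

/-- There is a function `y` which tends to infinity such that the set of all `v` without the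
property `Good (y v) v` has natural density zero. -/
theorem result : ∃ y : ℕ → ℕ, Monotone y ∧ Tendsto y atTop atTop ∧
    Tendsto (fun X : ℕ => (({v : ℕ | v ≤ X ∧ ¬ Good (y v) v}.ncard : ℕ) : ℝ) / X)
      atTop (𝓝 0) := by
  obtain ⟨y, h1, h2, h3⟩ := Pool.Agent.Y346.CH.diagonal
    (fun y v => ¬ ∃ j : ℕ, y ≤ j ∧ ¬ Pool.Agent.V11209.TD.HasT j.factorial v)
    (fun k l n hkl h => fun ⟨j, hj, h2⟩ => h ⟨j, hkl.trans hj, h2⟩)
    (fun j => Pool.Agent.TH905.PC.Negl.mono
      (fun v hv => by by_contra h; exact hv ⟨j, le_rfl, h⟩)
      (fun ε hε => eventually_atTop.2
        (Pool.Agent.V11209.TD.small_T (Nat.factorial_ne_zero j) ε hε)))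
  refine ⟨y, h1, h2, ?_⟩
  refine squeeze_zero (fun X => by positivity) (fun X => ?_) h3
  refine div_le_div_of_nonneg_right ?_ (Nat.cast_nonneg X)
  rw [Nat.cast_le]
  apply Set.ncard_le_ncard _ ((Set.finite_Iic X).subset fun n hn => hn.1)
  rintro v ⟨hv, hg⟩
  refine ⟨hv, ?_⟩
  rintro ⟨j, hj, h4⟩
  exact hg (good_of hj h4)

end Pool.Agent.Results.MP_3038d1_co.TacticalDecompositions
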